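import Pool.Agent.W315.MD.Final
import Pool.Agent.TH849.LB.Crit

/-!
# r-graphs all of whose bricks are in one of six classes are class 1

`MGraph r ends`: loopless `r`-regular multigraph on `Fin n` (edges `Fin m`) with at least `r` edges
leaving every odd vertex set.  `MCover 1 r ends`: `1 * r` perfect matchings covering every edge exactly
once.  `Brick H`: deleting any two vertices of `H` leaves a connected graph with a perfect matching.
`OddMinor H G`: `H` is a minor of `G`, with branch sets that have an odd number of vertices.
`Sum5`: tree decompositions with bags of at most five vertices, adjacent bags being equal or sharing at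
most three.  `EvenPerms`: every permutation of the vertices which moves each vertex to a neighbour has
only even cycles (for instance: even order and no two disjoint odd cycles).  `TwoColour`: there is a
stable set `B` with `|W| = 2|B| + 2` and a 2-colouring of the edges outside `B` such that for each colour
the edges which meet `B` or have this colour form a graph with `EvenPerms`.  `Few`: call `S` heavy if it
is odd, `H[S]` is 2-connected, factor-critical and contains an odd cycle of length at least five, and `S`
and its complement have perfect 2-matchings; there are natural numbers `k S` and reals `y S ≥ 0` such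
that every perfect matching has at most `2 * k S + 3` edges leaving the heavy set `S`, `y S + y T ≥ 1`
whenever a perfect matching has at least five edges leaving each of the disjoint heavy sets `S`, `T`, and
the sum of `y S * k S / (k S + 1)` over the heavy sets is less than `3` (for instance: any two odd cycles
of length at least five meet).
-/

set_option autoImplicit false

namespace Pool.Agent.Results.MP_0c2bb8_co.MixedBricks

open H76FC H76TX H76TY H76TW Pool.Agent.W315.LB Pool.Agent.TH583.HB Pool.Agent.TH100.LV

/-- Let `G` be an `r`-graph such that every brick `H` that is a minor of `G` with odd branch sets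
has at most 13 vertices and no Petersen minor, or is in `Sum5`, or has a vertex partition into two sides
such that any two edges inside the same side meet, or is in `EvenPerms`, `TwoColour` or `Few`.  Then `G`
has `r` perfect matchings covering every edge exactly once. -/
theorem result {r n m : ℕ} (ends : Fin m → Sym2 (Fin n)) (hG : MGraph r ends)
    (hB : ∀ (W : Type) [Fintype W] (H : SimpleGraph W), Brick H →
      OddMinor H (SimpleGraph.fromEdgeSet (Set.range ends)) →
      (Fintype.card W ≤ 13 ∧ ¬ PetMinor H) ∨ Sum5 H ∨
      (∃ c : W → Bool, ∀ a b a' b' : W, H.Adj a b → H.Adj a' b' → c a = c b → c a' = c b' →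
        c a = c a' → a = a' ∨ a = b' ∨ b = a' ∨ b = b') ∨
      EvenPerms H.Adj ∨ TwoColour H ∨ Few W H) : MCover 1 r ends := by
  obtain ⟨hp, _⟩ := toR r n m ends hG
  rw [coverIff 1 r n m ends hG]
  refine main Pool.Agent.W209.LB.conn3 Pool.Agent.W427.LB.bicrit transport H76TW.bip H76TW.span
    tight2 connSide (fun W _ H => Known' W H ∨ Few W H)
    (fun V _ _ r p hc hp => eight' V r p (by omega) hp)
    (fun V _ _ r p hr hp hnt _ hk => hk.elim (fun h => Or.inl (cover_known' hp h))
      (fun h => Or.inr (step hr hp hnt h))) _ _ rfl r _ hp ?_
  intro W _ H hH ho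
  have hcl : (Fintype.card W ≤ 13 ∧ ¬ PetMinor H) ∨ Sum5 H ∨
      (∃ c : W → Bool, ∀ a b a' b' : W, H.Adj a b → H.Adj a' b' → c a = c b → c a' = c b' →
        c a = c a' → a = a' ∨ a = b' ∨ b = a' ∨ b = b') ∨
      EvenPerms H.Adj ∨ TwoColour H ∨ Few W H := by
    refine hB W H hH (oddMinor_sub H _ _ id Function.injective_id ?_ ho)
    intro a b hab
    have hmul : ∀ a b : Fin n, mult ends a b ≠ 0 → ∃ e, ends e = s(a, b) := by
      intro a b huv
      unfold mult at huv
      obtain ⟨e, he⟩ := Finset.card_pos.1 (Nat.pos_of_ne_zero huv)
      exact ⟨e, (Finset.mem_filter.1 he).2⟩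
    unfold gr at hab
    rw [SimpleGraph.fromRel_adj] at hab
    rw [SimpleGraph.fromEdgeSet_adj]
    refine ⟨?_, hab.1⟩
    rcases hab.2 with h1 | h1
    · obtain ⟨e, he⟩ := hmul a b (by omega)
      exact ⟨e, he⟩
    · obtain ⟨e, he⟩ := hmul b a (by omega)
      exact ⟨e, by simp only [id]; rw [he, Sym2.eq_swap]⟩
  rcases hcl with h | h | h | h | h | h
  · exact Or.inl (Or.inl (Or.inl h))
  · exact Or.inl (Or.inl (Or.inr (Or.inl h)))
  · exact Or.inl (Or.inl (Or.inr (Or.inr h)))
  · exact Or.inl (Or.inr (Or.inl h))
  · exact Or.inl (Or.inr (Or.inr h))
  · exact Or.inr h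

end Pool.Agent.Results.MP_0c2bb8_co.MixedBricks
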